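import Pool.Agent.TH893.CL.Twist
import Pool.Agent.HP25.OS.G

set_option autoImplicit false

/-! Products of consecutive values of the Liouville function, lengths close to random real numbers. -/

namespace Pool.Agent.HP25.AL
open Finset
open Pool.Agent.TH872.Sq (liF)
open Pool.Agent.TH893.CL (Pk twist_le l_abs)
open Pool.Agent.HP25.OS (NL corr joint_laws liF_abs)

lemma liF_pm (n : ℕ) : liF n = 1 ∨ liF n = -1 := by
  unfold liF
  exact neg_one_pow_eq_or ℝ _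

/-- sums over all intervals from the sums over few initial segments -/
lemma segs (N Δ : ℕ) (hΔ : 1 ≤ Δ) (w v : ℕ → ℝ) (hw : ∀ n, |w n| ≤ 1) (hv : ∀ n, |v n| ≤ 1) (M : ℝ)
    (h : ∀ a ≤ N / Δ, |∑ n ∈ Icc 1 N, (if n ≤ a * Δ then w n else 0) * v n| ≤ M) :
    ∀ Y X : ℕ, Y ≤ X → X ≤ N → |∑ n ∈ Ioc Y X, w n * v n| ≤ 2 * (M + Δ) := by
  have h1 : ∀ Z : ℕ, Z ≤ N → |∑ n ∈ Ioc 0 Z, w n * v n| ≤ M + Δ := by
    intro Z hZ
    obtain ⟨a, ha⟩ : ∃ a, a = Z / Δ := ⟨_, rfl⟩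
    have ha1 : a * Δ ≤ Z := by rw [ha]; exact Nat.div_mul_le_self _ _
    have ha2 : Z < a * Δ + Δ := by
      rw [ha]
      have := Nat.lt_div_mul_add (a := Z) (b := Δ) (by omega)
      exact this
    have ha3 : a ≤ N / Δ := by rw [ha]; exact Nat.div_le_div_right hZ
    have e1 : ∑ n ∈ Icc 1 N, (if n ≤ a * Δ then w n else 0) * v n = ∑ n ∈ Ioc 0 (a * Δ), w n * v n := by
      have : Ioc 0 (a * Δ) = (Icc 1 N).filter (fun n => n ≤ a * Δ) := by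
        ext n
        simp only [mem_Ioc, mem_filter, mem_Icc]
        omega
      rw [this, sum_filter]
      apply sum_congr rfl
      intro n _
      split_ifs
      · rfl
      · rw [zero_mul]
    have h2 := h a ha3
    rw [e1] at h2
    have e2 : ∑ n ∈ Ioc 0 Z, w n * v n = ∑ n ∈ Ioc 0 (a * Δ), w n * v n + ∑ n ∈ Ioc (a * Δ) Z, w n * v n :=
      (sum_Ioc_consecutive _ (Nat.zero_le _) ha1).symm
    rw [e2]
    refine (abs_add_le _ _).trans (add_le_add h2 ?_)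
    refine (abs_sum_le_sum_abs _ _).trans ?_
    calc ∑ n ∈ Ioc (a * Δ) Z, |w n * v n| ≤ ∑ n ∈ Ioc (a * Δ) Z, (1 : ℝ) := by
          apply sum_le_sum
          intro n _
          rw [abs_mul]
          exact mul_le_one₀ (hw n) (abs_nonneg _) (hv n)
      _ = ((Z - a * Δ : ℕ) : ℝ) := by rw [sum_const, Nat.card_Ioc, nsmul_eq_mul, mul_one]
      _ ≤ Δ := by exact_mod_cast (by omega : Z - a * Δ ≤ Δ)
  intro Y X hYX hX
  have e : ∑ n ∈ Ioc Y X, w n * v n = ∑ n ∈ Ioc 0 X, w n * v n - ∑ n ∈ Ioc 0 Y, w n * v n := by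
    rw [← sum_Ioc_consecutive _ (Nat.zero_le Y) hYX]
    ring
  rw [e]
  refine (abs_sub _ _).trans ?_
  have h2 := h1 X hX
  have h3 := h1 Y (hYX.trans hX)
  linarith

/-- The bound for the sums of the products of `k` consecutive values, with the weights `ξ`, over all intervals. -/
def LenOK (U N : ℕ) (ξ : ℕ → ℂ) (k : ℕ) : Prop :=
  ∀ Y X : ℕ, Y ≤ X → X ≤ N → ‖∑ n ∈ Ioc Y X, ξ n * (Pk liF k n : ℂ)‖ ≤ ((X : ℝ) - Y) / 2 + N / Real.log N ^ U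

/-- the four weights -/
noncomputable def wt (ξ : ℕ → ℂ) (i n : ℕ) : ℝ :=
  (if i / 2 % 2 = 0 then (ξ n).re else (ξ n).im) * (if i % 2 = 0 then (ξ (n + 1)).re else (ξ (n + 1)).im) * liF n

lemma wt_abs (ξ : ℕ → ℂ) (hξ : ∀ n, ‖ξ n‖ ≤ 1) (i n : ℕ) : |wt ξ i n| ≤ 1 := by
  have hre : ∀ n, |(ξ n).re| ≤ 1 := fun n => (Complex.abs_re_le_norm _).trans (hξ n)
  have him : ∀ n, |(ξ n).im| ≤ 1 := fun n => (Complex.abs_im_le_norm _).trans (hξ n)
  unfold wt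
  rw [abs_mul, abs_mul, liF_abs, mul_one]
  apply mul_le_one₀ _ (abs_nonneg _) _
  · split_ifs
    · exact hre n
    · exact him n
  · split_ifs
    · exact hre _
    · exact him _

open Classical in
theorem len_law (q : Fin (0 + 1) → ℕ) (hq : ∀ i, 1 ≤ q i) (C₀ : Fin (0 + 1) → ℝ) (hC₀ : ∀ i, 0 < C₀ i) (F T W U : ℕ)
    (hT : 1 ≤ T) : ∃ N₁ : ℕ, ∀ N : ℕ, N₁ ≤ N → ∀ ξ : ℕ → ℂ, (∀ n, ‖ξ n‖ ≤ 1) →
    ∀ (Ω : Fin (0 + 1) → Finset ℕ) (p : Fin (0 + 1) → ℕ → ℝ), (∀ i, NL (q i) (C₀ i) F T W N (Ω i) (p i)) →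
    (∀ i, ∀ v ∈ Ω i, 0 ≤ p i v) →
    ∑ m ∈ Fintype.piFinset Ω, (if ¬ LenOK U N ξ (m 0) then ∏ i, p i (m i) else 0) ≤ 1 / Real.log N ^ U := by
  obtain ⟨N1, h1⟩ := joint_laws 0 1 (U + 5) (U + 1) q hq C₀ hC₀ F T W hT
  obtain ⟨N2, hN2⟩ : ∃ N2 : ℕ, ∀ N : ℕ, N2 ≤ N → 32 ≤ Real.log N ∧ Real.log N ^ (U + 1) ≤ N := by
    have g1 := (tendsto_natCast_atTop_atTop (R := ℝ)).eventually
      ((isLittleO_log_rpow_atTop (r := 1 / (((U + 1 : ℕ) : ℝ))) (by positivity)).def (c := 1) one_pos)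
    have g2 := (tendsto_natCast_atTop_atTop (R := ℝ)).eventually_ge_atTop (Real.exp 32)
    obtain ⟨n0, g3⟩ := Filter.eventually_atTop.1 (g1.and g2)
    refine ⟨n0 + 1, fun N hN => ?_⟩
    obtain ⟨g4, g5⟩ := g3 N (by omega)
    have hN1 : (1 : ℝ) ≤ N := by exact_mod_cast (by omega : 1 ≤ N)
    have hN0 : (0 : ℝ) < N := by linarith
    have hl : 32 ≤ Real.log N := by
      rw [Real.le_log_iff_exp_le hN0]
      exact g5
    refine ⟨hl, ?_⟩
    rw [Real.norm_of_nonneg (by linarith), Real.norm_of_nonneg (by positivity), one_mul] at g4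
    calc Real.log N ^ (U + 1) ≤ ((N : ℝ) ^ (1 / ((U + 1 : ℕ) : ℝ))) ^ (U + 1) := pow_le_pow_left₀ (by linarith) g4 _
      _ = (N : ℝ) ^ (1 / ((U + 1 : ℕ) : ℝ) * ((U + 1 : ℕ) : ℝ)) := by rw [Real.rpow_mul hN0.le, Real.rpow_natCast]
      _ = N := by rw [one_div_mul_cancel (by positivity), Real.rpow_one]
  refine ⟨N1 + N2 + 1, fun N hN ξ hξ Ω p hlaw hp => ?_⟩
  obtain ⟨hL32, hLN⟩ := hN2 N (by omega)
  obtain ⟨L, hL⟩ : ∃ L, L = Real.log N := ⟨_, rfl⟩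
  rw [← hL] at hL32 hLN ⊢
  have hN0 : (0 : ℝ) < N := by exact_mod_cast (by omega : 0 < N)
  have hLp : 0 < L ^ (U + 1) := by positivity
  obtain ⟨Δ, hΔ⟩ : ∃ Δ : ℕ, Δ = ⌊(N : ℝ) / L ^ (U + 1)⌋₊ + 1 := ⟨_, rfl⟩
  have hΔ1 : 1 ≤ Δ := by omega
  have hΔlow : (N : ℝ) / L ^ (U + 1) ≤ Δ := by
    rw [hΔ]
    push_cast
    exact (Nat.lt_floor_add_one _).le
  have hΔup : (Δ : ℝ) ≤ N / L ^ (U + 1) + 1 := by
    rw [hΔ]
    push_cast
    linarith [Nat.floor_le (by positivity : 0 ≤ (N : ℝ) / L ^ (U + 1))]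
  have hND : ((N / Δ : ℕ) : ℝ) ≤ L ^ (U + 1) := by
    have h2 : (((N / Δ : ℕ) : ℝ)) ≤ (N : ℝ) / Δ := Nat.cast_div_le
    refine h2.trans ?_
    rw [div_le_iff₀ (by exact_mod_cast hΔ1)]
    rw [div_le_iff₀ hLp] at hΔlow
    linarith
  obtain ⟨A, hA⟩ : ∃ A, A = 4 * (N / Δ + 1) := ⟨_, rfl⟩
  have hAL : (A : ℝ) ≤ L ^ (U + 5) := by
    rw [hA]
    push_cast
    have h3 : (1 : ℝ) ≤ L ^ (U + 1) := one_le_pow₀ (by linarith)
    have h4 : L ^ (U + 5) = L ^ (U + 1) * L ^ 4 := by rw [← pow_add]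
    have h5 : (32 : ℝ) ^ 4 ≤ L ^ 4 := pow_le_pow_left₀ (by norm_num) hL32 4
    rw [h4]
    nlinarith
  obtain ⟨θ, hθ⟩ : ∃ θ : Fin A → ℕ → ℝ, ∀ l n, θ l n = if n ≤ (l : ℕ) / 4 * Δ then wt ξ ((l : ℕ) % 4) n else 0 := ⟨_, fun _ _ => rfl⟩
  have hθb : ∀ l n, |θ l n| ≤ 1 := by
    intro l n
    rw [hθ]
    split_ifs
    · exact wt_abs ξ hξ _ n
    · rw [abs_zero]
      norm_num
  have h2 := h1 N (by omega) A (by rw [← hL]; exact hAL) θ (fun l n _ => (hθb l n).trans (by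
    rw [← hL]
    exact one_le_pow₀ (by linarith))) Ω p hlaw
  have h3 : 1 / Real.log N ^ (U + 1) ≤ 1 / L ^ U := by
    rw [← hL]
    exact one_div_le_one_div_of_le (by positivity) (pow_le_pow_right₀ (by linarith) (by omega))
  refine le_trans (sum_le_sum ?_) (h2.trans h3)
  intro m hm
  have hP0 : 0 ≤ ∏ i, p i (m i) := prod_nonneg fun j _ => hp j _ (Fintype.mem_piFinset.1 hm j)
  by_cases g : (1 ≤ 0 → Pool.Agent.W93.TD.HLs 1 (U + 1 + 1) N (fun i : Fin 0 => m (Fin.castAdd 1 i))) ∧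
      (1 ≤ 1 → ∀ l, |corr (θ l) N m| ≤ N / Real.log N ^ (U + 1))
  · rw [if_neg (not_not.2 g), if_neg]
    rw [not_not]
    obtain ⟨-, g⟩ := g
    have g := g le_rfl
    rw [← hL] at g
    have hcorr : ∀ l, corr (θ l) N m = ∑ n ∈ Icc 1 N, θ l n * liF (n + m 0) := by
      intro l
      unfold corr
      apply sum_congr rfl
      intro n _
      simp
    have key : ∀ i < 4, ∀ Y X : ℕ, Y ≤ X → X ≤ N → |∑ n ∈ Ioc Y X, wt ξ i n * liF (n + m 0)| ≤ 2 * (N / L ^ (U + 1) + Δ) := by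
      intro i hi
      apply segs N Δ hΔ1 (wt ξ i) (fun n => liF (n + m 0)) (wt_abs ξ hξ i) (fun n => (liF_abs _).le)
      intro a ha
      have hl : 4 * a + i < A := by rw [hA]; omega
      have g1 := g ⟨4 * a + i, hl⟩
      rw [hcorr] at g1
      refine le_trans (le_of_eq ?_) g1
      congr 1
      apply sum_congr rfl
      intro n _
      rw [hθ]
      have e1 : (4 * a + i) / 4 = a := by omega
      have e2 : (4 * a + i) % 4 = i := by omega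
      simp only [e1, e2]
    intro Y X hYX hX
    have t1 := key 0 (by norm_num) Y X hYX hX
    have t2 := key 1 (by norm_num) Y X hYX hX
    have t3 := key 2 (by norm_num) Y X hYX hX
    have t4 := key 3 (by norm_num) Y X hYX hX
    unfold wt at t1 t2 t3 t4
    norm_num at t1 t2 t3 t4
    have t5 := twist_le liF_pm (m 0) hξ hYX t1 t2 t3 t4
    refine t5.trans ?_
    rw [← hL]
    have hNL : L ≤ N / L ^ U := by
      rw [le_div_iff₀ (by positivity)]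
      rw [pow_succ] at hLN
      linarith
    have e3 : (N : ℝ) / L ^ (U + 1) = N / L ^ U / L := by
      rw [pow_succ, div_div]
    obtain ⟨R, hR⟩ : ∃ R, R = (N : ℝ) / L ^ U := ⟨_, rfl⟩
    rw [e3, ← hR] at hΔup ⊢
    rw [← hR] at hNL
    have h5 : R / L ≤ R / 32 := div_le_div_of_nonneg_left (by linarith) (by norm_num) hL32
    linarith
  · rw [if_pos g]
    by_cases hk : LenOK U N ξ (m 0)
    · rw [if_neg (not_not.2 hk)]
      exact hP0
    · rw [if_pos hk]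

end Pool.Agent.HP25.AL
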