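import Pool.Agent.HP25.AL.A
import Pool.Agent.HP25.FD.E

set_option autoImplicit false

/-! Products of consecutive values of the Liouville function: lengths near the multiples of almost all points. -/

namespace Pool.Agent.HP25.AL
open Finset MeasureTheory Filter Topology
open Pool.Agent.HP25.OS (NL)
open Pool.Agent.HP25.FD (Decay near_decay)

lemma lenOK_mono (U U' N : ℕ) (hU : U ≤ U') (hl : 1 ≤ Real.log N) (ξ : ℕ → ℂ) (k : ℕ) (h : LenOK U' N ξ k) : LenOK U N ξ k := by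
  intro Y X hYX hX
  refine (h Y X hYX hX).trans ?_
  have : (N : ℝ) / Real.log N ^ U' ≤ N / Real.log N ^ U :=
    div_le_div_of_nonneg_left (Nat.cast_nonneg _) (by positivity) (pow_le_pow_right₀ hl hU)
  linarith

/-- one real variable as a vector -/
lemma pi_one (ν : Measure ℝ) [IsProbabilityMeasure ν] (B : Set ℝ) (B' : Set (Fin (0 + 1) → ℝ)) (h : ∀ x ∈ B, ∀ y : Fin (0 + 1) → ℝ, y 0 = x → y ∈ B') :
    ν.real B ≤ (Measure.pi (fun _ : Fin (0 + 1) => ν)).real B' := by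
  let _ : Unique (Fin (0 + 1)) := inferInstanceAs (Unique (Fin 1))
  have h1 := (measurePreserving_funUnique ν (Fin (0 + 1))).measure_preimage_equiv B
  rw [measureReal_def, ← h1]
  apply ENNReal.toReal_mono (measure_lt_top _ _).ne
  apply measure_mono
  intro y hy
  exact h _ hy y rfl

open Classical in
theorem len_decay (T U W : ℕ) (hT : 1 ≤ T) (C δ : ℝ) (hδ : 0 < δ) : ∃ N₀ : ℕ, ∀ N : ℕ, N₀ ≤ N →
    ∀ (ν : Measure ℝ) [IsProbabilityMeasure ν], ν (Set.Icc (0 : ℝ) T)ᶜ = 0 → Decay ν C δ → ∀ ξ : ℕ → ℂ, (∀ n, ‖ξ n‖ ≤ 1) →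
    ν.real {x | ¬ ∀ k : ℕ, |(k : ℝ) - N * x| ≤ Real.log N ^ W → LenOK U N ξ k} ≤ 1 / Real.log N ^ U := by
  obtain ⟨q, C₀, F, W', U', hq, hC₀, hUU, N1, h1⟩ := near_decay (0 + 1) (fun _ => C) (fun _ => δ) (fun _ => hδ) T W U hT
  obtain ⟨N2, h2⟩ := len_law q hq C₀ hC₀ F T W' U' hT
  obtain ⟨N3, hN3⟩ := exists_nat_ge (Real.exp 1)
  refine ⟨N1 + N2 + N3 + 1, fun N hN ν _ hν hdec ξ hξ => ?_⟩
  have hl : 1 ≤ Real.log N := by
    rw [Real.le_log_iff_exp_le (by exact_mod_cast (by omega : 0 < N))]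
    exact hN3.trans (by exact_mod_cast (by omega : N3 ≤ N))
  have h3 := h1 N (by omega) (fun m => ¬ LenOK U' N ξ (m 0)) (fun Ω p hlaw hp => by
      convert h2 N (by omega) ξ hξ Ω p hlaw hp)
    (fun _ => ν) (fun _ => hν) (fun _ => hdec)
  refine le_trans (pi_one ν _ _ ?_) h3
  intro x hx y hy
  have hx' : ¬ ∀ k : ℕ, |(k : ℝ) - N * x| ≤ Real.log N ^ W → LenOK U N ξ k := hx
  push Not at hx'
  obtain ⟨k, hk, hbad⟩ := hx'
  refine ⟨fun _ => k, fun i => ?_, fun hok => hbad (lenOK_mono U U' N hUU hl ξ k hok)⟩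
  have _ : Subsingleton (Fin (0 + 1)) := inferInstanceAs (Subsingleton (Fin 1))
  have : i = 0 := Subsingleton.elim _ _
  rw [this, hy]
  exact hk

end Pool.Agent.HP25.AL
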